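import Pool.Agent.W97.KE.Stm

/-!
# The action of the Iwasawa algebra on the Selmer group
-/

set_option autoImplicit false
set_option linter.unusedSectionVars false

open scoped Classical

namespace Pool.Agent.W563.KE

open Pool.Agent.W97.KE

/-! ### Coefficients -/

section coef
variable {p : ℕ} [hp : Fact p.Prime] {A : Type} [AddCommGroup A]

lemma nsmul_congr {k x y : ℕ} {b : A} (hb : p ^ k • b = 0) (h : (x : ZMod (p ^ k)) = y) :
    x • b = y • b := by
  have key : ∀ t : ℕ, t • b = (t % p ^ k) • b := by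
    intro t
    conv_lhs => rw [← Nat.mod_add_div t (p ^ k)]
    rw [add_smul, mul_comm, mul_smul, hb, smul_zero, add_zero]
  rw [key x, key y, (ZMod.natCast_eq_natCast_iff' x y (p ^ k)).1 h]

lemma appr_cast {k k' : ℕ} (hk : k ≤ k') (z : ℤ_[p]) :
    ((z.appr k' : ℕ) : ZMod (p ^ k)) = PadicInt.toZModPow k z := by
  have h1 := PadicInt.appr_spec k' z
  have h2 : z - (z.appr k' : ℤ_[p]) ∈ RingHom.ker (PadicInt.toZModPow k : ℤ_[p] →+* _) := by
    rw [PadicInt.ker_toZModPow]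
    rw [Ideal.mem_span_singleton] at h1 ⊢
    exact (pow_dvd_pow _ hk).trans h1
  rw [RingHom.mem_ker, map_sub, map_natCast, sub_eq_zero] at h2
  exact h2.symm

lemma appr_ind {k k' : ℕ} {b : A} (hb : p ^ k • b = 0) (hb' : p ^ k' • b = 0) (z : ℤ_[p]) :
    z.appr k • b = z.appr k' • b := by
  rcases le_total k k' with h | h
  · exact nsmul_congr hb (by rw [appr_cast le_rfl, appr_cast h])
  · exact nsmul_congr hb' (by rw [appr_cast le_rfl, appr_cast h])

lemma appr_zero {k : ℕ} {b : A} (hb : p ^ k • b = 0) : (0 : ℤ_[p]).appr k • b = 0 := by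
  rw [nsmul_congr (y := 0) hb (by rw [appr_cast le_rfl, map_zero, Nat.cast_zero]), zero_smul]

lemma appr_one {k : ℕ} {b : A} (hb : p ^ k • b = 0) : (1 : ℤ_[p]).appr k • b = b := by
  rw [nsmul_congr (y := 1) hb (by rw [appr_cast le_rfl, map_one, Nat.cast_one]), one_smul]

lemma appr_add {k : ℕ} {b : A} (hb : p ^ k • b = 0) (z w : ℤ_[p]) :
    (z + w).appr k • b = z.appr k • b + w.appr k • b := by
  rw [← add_smul]
  exact nsmul_congr hb (by
    rw [appr_cast le_rfl, map_add, Nat.cast_add, appr_cast le_rfl, appr_cast le_rfl])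

lemma appr_mul {k : ℕ} {b : A} (hb : p ^ k • b = 0) (z w : ℤ_[p]) :
    (z * w).appr k • b = z.appr k • (w.appr k • b) := by
  rw [← mul_smul]
  exact nsmul_congr hb (by
    rw [appr_cast le_rfl, map_mul, Nat.cast_mul, appr_cast le_rfl, appr_cast le_rfl])

end coef

/-! ### The Galois action -/

section abs
variable {A : Type} [AddCommGroup A] (ρ : GQ → A →+ A)

/-- an action -/
structure IsAct : Prop where
  mul : ∀ h h' a, ρ (h * h') a = ρ h (ρ h' a)
  one : ∀ a, ρ 1 a = a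

/-- fixed by the elements that fix the `N`-th roots of unity -/
def Fx (N : ℕ) (a : A) : Prop := ∀ h : GQ, (∀ z : Qb, z ^ N = 1 → h z = z) → ρ h a = a

/-- the action of `σ_u⁻¹` -/
noncomputable def ac (N : ℕ) (u : (ZMod N)ˣ) : A →+ A := ρ (sig N u)⁻¹

variable {ρ}

lemma sig_spec (hS : S_SIG) {N : ℕ} (hN : 1 ≤ N) (u : (ZMod N)ˣ) : IsSig N u (sig N u) :=
  Classical.epsilon_spec (hS.1 N hN u)

lemma ac_eq (hS : S_SIG) (hρ : IsAct ρ) {N : ℕ} (hN : 1 ≤ N) {u : (ZMod N)ˣ} {h : GQ}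
    (hu : IsSig N u h) {a : A} (ha : Fx ρ N a) : ρ h⁻¹ a = ac ρ N u a := by
  have hs := sig_spec hS hN u
  have h1 := (hS.2.2.1 N hN u u h h hu hu).2.1
  have h2 := (hS.2.2.1 N hN u u (sig N u) (sig N u) hs hs).2.1
  have h3 := (hS.2.2.1 N hN u⁻¹ u⁻¹ h⁻¹ (sig N u)⁻¹ h1 h2).2.2.1 rfl
  rw [inv_inv] at h3
  have h4 : h⁻¹ = (sig N u)⁻¹ * (sig N u * h⁻¹) := by group
  rw [h4, hρ.mul, ha _ h3, ac]

lemma fx_act (hρ : IsAct ρ) {N : ℕ} {a : A} (ha : Fx ρ N a) (g : GQ) : Fx ρ N (ρ g a) := by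
  intro h hh
  have h1 : h * g = g * (g⁻¹ * h * g) := by group
  rw [← hρ.mul, h1, hρ.mul, ha]
  intro z hz
  have h2 : (g z) ^ N = 1 := by rw [← map_pow, hz, map_one]
  rw [AlgEquiv.mul_apply, AlgEquiv.mul_apply, hh _ h2]
  exact g.symm_apply_apply z

lemma fx_ac (hρ : IsAct ρ) {N : ℕ} {a : A} (ha : Fx ρ N a) (u : (ZMod N)ˣ) :
    Fx ρ N (ac ρ N u a) := fx_act hρ ha _

lemma ac_mul (hS : S_SIG) (hρ : IsAct ρ) {N : ℕ} (hN : 1 ≤ N) (u v : (ZMod N)ˣ) {a : A}
    (ha : Fx ρ N a) : ac ρ N (u * v) a = ac ρ N u (ac ρ N v a) := by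
  have h1 := (hS.2.2.1 N hN v u (sig N v) (sig N u) (sig_spec hS hN v) (sig_spec hS hN u)).1
  rw [mul_comm u v, ← ac_eq hS hρ hN h1 ha, ac, ac, ← hρ.mul, mul_inv_rev]

lemma act_inj (hρ : IsAct ρ) (g : GQ) {a b : A} (h : ρ g a = ρ g b) : a = b := by
  have h1 := congrArg (ρ g⁻¹) h
  rwa [← hρ.mul, ← hρ.mul, inv_mul_cancel, hρ.one, hρ.one] at h1

lemma ac_one (hS : S_SIG) (hρ : IsAct ρ) {N : ℕ} (hN : 1 ≤ N) {a : A} (ha : Fx ρ N a) :
    ac ρ N 1 a = a := by
  have h1 := ac_mul hS hρ hN 1 1 ha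
  rw [mul_one] at h1
  exact (act_inj hρ _ h1).symm

lemma ac_red (hS : S_SIG) (hρ : IsAct ρ) {N N' : ℕ} (hN : 1 ≤ N) (hN' : 1 ≤ N') (hd : N ∣ N')
    (u : (ZMod N')ˣ) {a : A} (ha : Fx ρ N a) :
    ac ρ N' u a = ac ρ N (ZMod.unitsMap hd u) a :=
  ac_eq hS hρ hN (hS.2.2.2 N' N hN' hd u _ (sig_spec hS hN' u)) ha

lemma tors_act {m : ℕ} {a : A} (ha : m • a = 0) (f : A →+ A) : m • f a = 0 := by
  rw [← map_nsmul, ha, map_zero]

/-! ### The action of the group algebra at one level -/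

variable {p : ℕ} [hp : Fact p.Prime]

variable (ρ) in
/-- the formula at level `N`, modulo `p^k` -/
noncomputable def BB (N k : ℕ) (x : MonoidAlgebra ℤ_[p] (ZMod N)ˣ) (a : A) : A :=
  ∑ᶠ u : (ZMod N)ˣ, ((x.coeff u : ℤ_[p]).appr k) • ac ρ N u a

lemma fin_units {N : ℕ} (hN : 1 ≤ N) : Finite (ZMod N)ˣ := by
  have : NeZero N := ⟨by omega⟩
  infer_instance

lemma BB_add {N k : ℕ} (hN : 1 ≤ N) {a : A} (hk : p ^ k • a = 0)
    (x y : MonoidAlgebra ℤ_[p] (ZMod N)ˣ) :
    BB ρ N k (x + y) a = BB ρ N k x a + BB ρ N k y a := by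
  have := fin_units hN
  rw [BB, BB, BB, ← finsum_add_distrib (Set.toFinite _) (Set.toFinite _)]
  refine finsum_congr fun u => ?_
  rw [MonoidAlgebra.coeff_add, Finsupp.add_apply, appr_add (tors_act hk _)]

lemma BB_add' {N k : ℕ} (hN : 1 ≤ N) (a b : A) (x : MonoidAlgebra ℤ_[p] (ZMod N)ˣ) :
    BB ρ N k x (a + b) = BB ρ N k x a + BB ρ N k x b := by
  have := fin_units hN
  rw [BB, BB, BB, ← finsum_add_distrib (Set.toFinite _) (Set.toFinite _)]
  refine finsum_congr fun u => ?_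
  rw [map_add, smul_add]

lemma BB_zero' {N k : ℕ} (x : MonoidAlgebra ℤ_[p] (ZMod N)ˣ) : BB ρ N k x (0 : A) = 0 := by
  rw [BB]
  refine finsum_eq_zero_of_forall_eq_zero fun u => ?_
  rw [map_zero, smul_zero]

lemma BB_zero {N k : ℕ} {a : A} (hk : p ^ k • a = 0) :
    BB ρ N k (0 : MonoidAlgebra ℤ_[p] (ZMod N)ˣ) a = 0 := by
  rw [BB]
  refine finsum_eq_zero_of_forall_eq_zero fun u => ?_
  rw [MonoidAlgebra.coeff_zero, Finsupp.zero_apply, appr_zero (tors_act hk _)]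

lemma BB_single {N k : ℕ} {a : A} (hk : p ^ k • a = 0) (u : (ZMod N)ˣ) (z : ℤ_[p]) :
    BB ρ N k (MonoidAlgebra.single u z) a = z.appr k • ac ρ N u a := by
  rw [BB, finsum_eq_single _ u]
  · rw [MonoidAlgebra.coeff_single, Finsupp.single_eq_same]
  · intro v hv
    rw [MonoidAlgebra.coeff_single, Finsupp.single_eq_of_ne hv, appr_zero (tors_act hk _)]

lemma BB_tors {N k : ℕ} (hN : 1 ≤ N) {a : A} (hk : p ^ k • a = 0)
    (x : MonoidAlgebra ℤ_[p] (ZMod N)ˣ) : p ^ k • BB ρ N k x a = 0 := by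
  induction x using MonoidAlgebra.induction_linear with
  | zero => rw [BB_zero hk, smul_zero]
  | add x y hx hy => rw [BB_add hN hk, smul_add, hx, hy, add_zero]
  | single u z => rw [BB_single hk, smul_comm, tors_act hk, smul_zero]

lemma BB_fx (hρ : IsAct ρ) {N k : ℕ} (hN : 1 ≤ N) {a : A} (hk : p ^ k • a = 0) (ha : Fx ρ N a)
    (x : MonoidAlgebra ℤ_[p] (ZMod N)ˣ) : Fx ρ N (BB ρ N k x a) := by
  intro h hh
  induction x using MonoidAlgebra.induction_linear with
  | zero => rw [BB_zero hk, map_zero]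
  | add x y hx hy => rw [BB_add hN hk, map_add, hx, hy]
  | single u z => rw [BB_single hk, map_nsmul, fx_ac hρ ha u h hh]

lemma BB_mul (hS : S_SIG) (hρ : IsAct ρ) {N k : ℕ} (hN : 1 ≤ N) {a : A} (hk : p ^ k • a = 0)
    (ha : Fx ρ N a) (x y : MonoidAlgebra ℤ_[p] (ZMod N)ˣ) :
    BB ρ N k (x * y) a = BB ρ N k x (BB ρ N k y a) := by
  induction x using MonoidAlgebra.induction_linear with
  | zero => rw [zero_mul, BB_zero hk, BB_zero (BB_tors hN hk y)]
  | add x x' hx hx' => rw [add_mul, BB_add hN hk, hx, hx', BB_add hN (BB_tors hN hk y)]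
  | single u z =>
    induction y using MonoidAlgebra.induction_linear with
    | zero => rw [mul_zero, BB_zero hk, BB_zero']
    | add y y' hy hy' =>
      rw [mul_add, BB_add hN hk, hy, hy', BB_add hN hk, BB_add' hN]
    | single v w =>
      rw [MonoidAlgebra.single_mul_single, BB_single hk, BB_single hk,
        BB_single (by rw [smul_comm, tors_act hk, smul_zero]), map_nsmul,
        ← ac_mul hS hρ hN u v ha, appr_mul (tors_act hk _)]

lemma BB_one (hS : S_SIG) (hρ : IsAct ρ) {N k : ℕ} (hN : 1 ≤ N) {a : A} (hk : p ^ k • a = 0)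
    (ha : Fx ρ N a) : BB ρ N k (1 : MonoidAlgebra ℤ_[p] (ZMod N)ˣ) a = a := by
  rw [MonoidAlgebra.one_def, BB_single hk, appr_one (tors_act hk _), ac_one hS hρ hN ha]

lemma BB_k {N k k' : ℕ} {a : A} (hk : p ^ k • a = 0) (hk' : p ^ k' • a = 0)
    (x : MonoidAlgebra ℤ_[p] (ZMod N)ˣ) : BB ρ N k x a = BB ρ N k' x a :=
  finsum_congr fun _ => appr_ind (tors_act hk _) (tors_act hk' _) _

lemma BB_red (hS : S_SIG) (hρ : IsAct ρ) {N N' k : ℕ} (hN : 1 ≤ N) (hN' : 1 ≤ N') (hd : N ∣ N')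
    {a : A} (hk : p ^ k • a = 0) (ha : Fx ρ N a) (x : MonoidAlgebra ℤ_[p] (ZMod N')ˣ) :
    BB ρ N' k x a = BB ρ N k (MonoidAlgebra.mapDomainRingHom ℤ_[p] (ZMod.unitsMap hd) x) a := by
  induction x using MonoidAlgebra.induction_linear with
  | zero => rw [map_zero, BB_zero hk, BB_zero hk]
  | add x y hx hy => rw [map_add, BB_add hN' hk, hx, hy, BB_add hN hk]
  | single u z =>
    have h1 : MonoidAlgebra.mapDomainRingHom ℤ_[p] (ZMod.unitsMap hd)
        (MonoidAlgebra.single u z) = MonoidAlgebra.single (ZMod.unitsMap hd u) z :=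
      MonoidAlgebra.mapDomain_single
    rw [h1, BB_single hk, BB_single hk, ac_red hS hρ hN hN' hd u ha]

end abs

/-! ### The Selmer group -/

lemma selAct_mul (W : WeierstrassCurve ℤ) (p m : ℕ) (h h' : GQ) (a : Sel W p m) :
    selAct W p m (h * h') a = selAct W p m h (selAct W p m h' a) := by
  induction a using QuotientAddGroup.induction_on with
  | H c =>
    refine congrArg (QuotientAddGroup.mk) (Subtype.ext ?_)
    exact cact_mul W p m h h' c.1

lemma selAct_one (W : WeierstrassCurve ℤ) (p m : ℕ) (a : Sel W p m) :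
    selAct W p m 1 a = a := by
  induction a using QuotientAddGroup.induction_on with
  | H c =>
    refine congrArg (QuotientAddGroup.mk) (Subtype.ext ?_)
    exact cact_one W p m c.1

lemma isAct (W : WeierstrassCurve ℤ) (p m : ℕ) : IsAct (selAct W p m) :=
  ⟨selAct_mul W p m, selAct_one W p m⟩

section final
variable (hS : S_SIG) (W : WeierstrassCurve ℤ) (p : ℕ) [hp : Fact p.Prime] (m : ℕ) (hm : 1 ≤ m)

include hm in
lemma lev_pos (n : ℕ) : 1 ≤ m * p ^ (n + 1) :=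
  Nat.mul_pos hm (pow_pos hp.out.pos _)

lemma fixed_mono {a : Sel W p m} {n : ℕ} (ha : FixedBy W p m a n) (j : ℕ) :
    FixedBy W p m a (n + j) := by
  intro h hh
  refine ha h fun z hz => hh z ?_
  have h1 : m * p ^ (n + j + 1) = m * p ^ (n + 1) * p ^ j := by
    rw [mul_assoc, ← pow_add]
    congr 2
    omega
  rw [h1, pow_mul, hz, one_pow]

include hS hm in
lemma lev_change (r : Rm p m) {a : Sel W p m} {n k : ℕ} (ha : FixedBy W p m a n)
    (hk : p ^ k • a = 0) (j : ℕ) :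
    BB (selAct W p m) (m * p ^ (n + j + 1)) k (r.1 (n + j)) a =
      BB (selAct W p m) (m * p ^ (n + 1)) k (r.1 n) a := by
  induction j with
  | zero => rfl
  | succ j ih =>
    rw [← ih]
    have h1 := r.2 (n + j)
    rw [← h1]
    exact BB_red hS (isAct W p m) (lev_pos p m hm (n + j)) (lev_pos p m hm (n + j + 1)) _ hk
      (fixed_mono W p m ha j) _

include hS hm in
lemma lev_ind (r : Rm p m) {a : Sel W p m} {n k n' k' : ℕ} (ha : FixedBy W p m a n)
    (hk : p ^ k • a = 0) (ha' : FixedBy W p m a n') (hk' : p ^ k' • a = 0) :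
    BB (selAct W p m) (m * p ^ (n + 1)) k (r.1 n) a =
      BB (selAct W p m) (m * p ^ (n' + 1)) k' (r.1 n') a := by
  rw [BB_k hk hk']
  rcases le_total n n' with h | h
  · obtain ⟨j, rfl⟩ := Nat.exists_eq_add_of_le h
    exact (lev_change hS W p m hm r ha hk' j).symm
  · obtain ⟨j, rfl⟩ := Nat.exists_eq_add_of_le h
    exact lev_change hS W p m hm r ha' hk' j

include hS hm in
lemma smul_eq (r : Rm p m) {a : Sel W p m} {n k : ℕ} (ha : FixedBy W p m a n)
    (hk : p ^ k • a = 0) :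
    smulSel W p m r a = BB (selAct W p m) (m * p ^ (n + 1)) k (r.1 n) a :=
  lev_ind hS W p m hm r (Classical.epsilon_spec (p := FixedBy W p m a) ⟨n, ha⟩)
    (Classical.epsilon_spec (p := fun k : ℕ => p ^ k • a = 0) ⟨k, hk⟩) ha hk

end final

theorem s_mod : S_MOD := by
  intro hS W p _ m hm hsm
  refine ⟨selAct_mul W p m, selAct_one W p m, ?_, ?_, ?_, ?_, ?_⟩
  · intro a
    obtain ⟨⟨k, hk⟩, n, hn⟩ := hsm a
    rw [smul_eq hS W p m hm 1 hn hk]
    exact BB_one hS (isAct W p m) (lev_pos p m hm n) hk hn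
  · intro r s a
    obtain ⟨⟨k, hk⟩, n, hn⟩ := hsm a
    rw [smul_eq hS W p m hm (r * s) hn hk, smul_eq hS W p m hm s hn hk,
      smul_eq hS W p m hm r (BB_fx (isAct W p m) (lev_pos p m hm n) hk hn _)
        (BB_tors (lev_pos p m hm n) hk _)]
    exact BB_mul hS (isAct W p m) (lev_pos p m hm n) hk hn _ _
  · intro r a b
    obtain ⟨⟨k, hk⟩, n, hn⟩ := hsm a
    obtain ⟨⟨k', hk'⟩, n', hn'⟩ := hsm b
    have ha1 : FixedBy W p m a (n + n') := fixed_mono W p m hn n'
    have hb1 : FixedBy W p m b (n + n') := by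
      rw [add_comm]
      exact fixed_mono W p m hn' n
    have ha2 : p ^ (k + k') • a = 0 := by
      rw [pow_add, mul_comm, mul_smul, hk, smul_zero]
    have hb2 : p ^ (k + k') • b = 0 := by
      rw [pow_add, mul_smul, hk', smul_zero]
    have hab1 : FixedBy W p m (a + b) (n + n') := by
      intro h hh
      rw [map_add, ha1 h hh, hb1 h hh]
    have hab2 : p ^ (k + k') • (a + b) = 0 := by
      rw [nsmul_add, ha2, hb2, add_zero]
    rw [smul_eq hS W p m hm r hab1 hab2, smul_eq hS W p m hm r ha1 ha2,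
      smul_eq hS W p m hm r hb1 hb2]
    exact BB_add' (lev_pos p m hm _) a b _
  · intro r s a
    obtain ⟨⟨k, hk⟩, n, hn⟩ := hsm a
    rw [smul_eq hS W p m hm (r + s) hn hk, smul_eq hS W p m hm s hn hk,
      smul_eq hS W p m hm r hn hk]
    exact BB_add (lev_pos p m hm n) hk _ _
  · intro r a n k hn hk
    exact smul_eq hS W p m hm r hn hk

end Pool.Agent.W563.KE
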